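import Pool.Agent.R730.Bz.MainC

set_option autoImplicit false

namespace Pool.Agent.Results.MP_65d510_co.RoyalPaths

open Pool.Agent.R730.Bz

/-- For every `n ≥ 1` the `(n+2, 2n)`-benzel has exactly `S_n - S_{n-1}` tilings by stones of both kinds
and bones of two of the three directions. -/
theorem result : ∀ (t₀ : Fin 3) (n : ℕ), 1 ≤ n →
    (T112 t₀ ((n : ℤ) + 2) (2 * n) : ℤ) = (largeSchroeder n : ℤ) - (largeSchroeder (n - 1) : ℤ) :=
  fun t₀ _ hn => T112_out t₀ hn

end Pool.Agent.Results.MP_65d510_co.RoyalPaths
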